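import Pool.Agent.H101.HB.Stm

set_option autoImplicit false

open Complex MeasureTheory Filter Topology Set

namespace Pool.Agent.H153.HBDS

open Pool.Agent.Y763.HB Pool.Agent.H101.HB
open ArithmeticFunction (moebius)

/-- `n ↦ n^(2δ)` -/
noncomputable def fF (δ : ℝ) : ArithmeticFunction ℝ :=
  ⟨fun n => if n = 0 then 0 else (n : ℝ) ^ (2 * δ), by simp⟩

/-- the real Möbius function -/
noncomputable def muR : ArithmeticFunction ℝ := ((moebius : ArithmeticFunction ℤ) : ArithmeticFunction ℝ)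

lemma fF_apply (δ : ℝ) {n : ℕ} (hn : n ≠ 0) : fF δ n = (n : ℝ) ^ (2 * δ) := by
  show (if n = 0 then (0 : ℝ) else (n : ℝ) ^ (2 * δ)) = _
  rw [if_neg hn]

lemma muR_apply (n : ℕ) : muR n = mu n := by
  unfold muR mu
  rw [ArithmeticFunction.intCoe_apply]

lemma fF_mult (δ : ℝ) : (fF δ).IsMultiplicative := by
  rw [ArithmeticFunction.IsMultiplicative.iff_ne_zero]
  refine ⟨?_, ?_⟩
  · rw [fF_apply δ one_ne_zero]; simp
  · intro m n hm hn _
    rw [fF_apply δ hm, fF_apply δ hn, fF_apply δ (mul_ne_zero hm hn), Nat.cast_mul,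
      Real.mul_rpow (Nat.cast_nonneg m) (Nat.cast_nonneg n)]

lemma muR_mult : muR.IsMultiplicative := ArithmeticFunction.isMultiplicative_moebius.intCast

/-- `be` as an arithmetic function -/
noncomputable def beF (δ : ℝ) : ArithmeticFunction ℝ := muR * fF δ

lemma beF_apply (δ : ℝ) (k : ℕ) : beF δ k = be δ k := by
  unfold beF be
  rw [ArithmeticFunction.mul_apply, Nat.sum_divisorsAntidiagonal (f := fun a b => muR a * fF δ b)]
  apply Finset.sum_congr rfl
  intro d hd
  have h1 := Nat.mem_divisors.1 hd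
  have h2 : k / d ≠ 0 := by
    have := Nat.div_pos (Nat.le_of_dvd (Nat.pos_of_ne_zero h1.2) h1.1)
      (Nat.pos_of_dvd_of_pos h1.1 (Nat.pos_of_ne_zero h1.2))
    omega
  rw [muR_apply, fF_apply δ h2]

lemma beF_mult (δ : ℝ) : (beF δ).IsMultiplicative := muR_mult.mul (fF_mult δ)

lemma zeta_beF (δ : ℝ) : ((ArithmeticFunction.zeta : ArithmeticFunction ℕ) : ArithmeticFunction ℝ) * beF δ =
    fF δ := by
  unfold beF muR
  rw [← mul_assoc, ArithmeticFunction.coe_zeta_mul_coe_moebius, one_mul]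

lemma sum_be (δ : ℝ) {l : ℕ} (hl : l ≠ 0) : ∑ k ∈ l.divisors, be δ k = (l : ℝ) ^ (2 * δ) := by
  have h : (((ArithmeticFunction.zeta : ArithmeticFunction ℕ) : ArithmeticFunction ℝ) * beF δ) l =
    fF δ l := by rw [zeta_beF δ]
  rw [ArithmeticFunction.coe_zeta_mul_apply, fF_apply δ hl] at h
  rw [← h]
  exact Finset.sum_congr rfl fun k _ => (beF_apply δ k).symm

lemma be_one (δ : ℝ) : be δ 1 = 1 := by
  rw [← beF_apply]
  exact (beF_mult δ).1

lemma beF_prime_pow {δ : ℝ} (hδ : 0 < δ) {p : ℕ} (hp : p.Prime) (j : ℕ) : 0 ≤ beF δ (p ^ j) := by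
  rcases j with _ | j
  · rw [pow_zero, (beF_mult δ).1]; exact zero_le_one
  · have h1 := sum_be δ (pow_ne_zero (j + 1) hp.ne_zero)
    have h2 := sum_be δ (pow_ne_zero j hp.ne_zero)
    rw [Nat.sum_divisors_prime_pow hp] at h1 h2
    rw [Finset.sum_range_succ, h2] at h1
    rw [beF_apply]
    have h3 : ((p ^ j : ℕ) : ℝ) ^ (2 * δ) ≤ ((p ^ (j + 1) : ℕ) : ℝ) ^ (2 * δ) := by
      apply Real.rpow_le_rpow (Nat.cast_nonneg _) _ (by linarith)
      exact_mod_cast Nat.pow_le_pow_right hp.pos (Nat.le_succ j)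
    linarith

lemma be_nonneg {δ : ℝ} (hδ : 0 < δ) (k : ℕ) : 0 ≤ be δ k := by
  rcases Nat.eq_zero_or_pos k with rfl | hk
  · unfold be; simp
  rw [← beF_apply, ArithmeticFunction.IsMultiplicative.multiplicative_factorization _ (beF_mult δ) hk.ne']
  apply Finset.prod_nonneg
  intro p hp
  exact beF_prime_pow hδ (Nat.prime_of_mem_primeFactors hp) _

lemma abs_mu_le (n : ℕ) : |mu n| ≤ 1 := by
  unfold mu
  have h : |moebius n| ≤ 1 := ArithmeticFunction.abs_moebius_le_one
  exact_mod_cast h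

lemma aa_bound {N : ℕ} {δ : ℝ} (hδ : 0 < δ) {l : ℕ} (hl : 1 ≤ l) : |aa N δ l| ≤ (l : ℝ) ^ (2 * δ) - 1 := by
  have hl0 : l ≠ 0 := by omega
  unfold aa
  calc |∑ n ∈ l.divisors.filter (fun n => n ≤ N ∧ n < l), mu n * be δ (l / n)|
      ≤ ∑ n ∈ l.divisors.filter (fun n => n ≤ N ∧ n < l), |mu n * be δ (l / n)| :=
        Finset.abs_sum_le_sum_abs _ _
    _ ≤ ∑ n ∈ l.divisors.filter (fun n => n ≤ N ∧ n < l), be δ (l / n) := by
        apply Finset.sum_le_sum
        intro n _
        rw [abs_mul, abs_of_nonneg (be_nonneg hδ _)]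
        calc |mu n| * be δ (l / n) ≤ 1 * be δ (l / n) :=
              mul_le_mul_of_nonneg_right (abs_mu_le n) (be_nonneg hδ _)
          _ = be δ (l / n) := one_mul _
    _ ≤ ∑ n ∈ l.divisors.erase l, be δ (l / n) := by
        apply Finset.sum_le_sum_of_subset_of_nonneg
        · intro n hn
          rw [Finset.mem_filter] at hn
          rw [Finset.mem_erase]
          exact ⟨by omega, hn.1⟩
        · intro n _ _
          exact be_nonneg hδ _
    _ = (l : ℝ) ^ (2 * δ) - 1 := by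
        have h1 : l ∈ l.divisors := Nat.mem_divisors_self l hl0
        have h2 := Finset.add_sum_erase l.divisors (fun n => be δ (l / n)) h1
        have h3 : ∑ n ∈ l.divisors, be δ (l / n) = ∑ n ∈ l.divisors, be δ n :=
          Nat.sum_div_divisors l (be δ)
        rw [h3, sum_be δ hl0] at h2
        simp only [Nat.div_self (Nat.pos_of_ne_zero hl0), be_one] at h2
        linarith

lemma muR_beF_sqf {δ : ℝ} {m : ℕ} (hm : Squarefree m) :
    (muR * beF δ) m = ∏ p ∈ m.primeFactors, ((p : ℝ) ^ (2 * δ) - 2) := by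
  have h := (muR_mult.mul (beF_mult δ)).prod_primeFactors hm
  rw [← h]
  apply Finset.prod_congr rfl
  intro p hp
  have hp' := Nat.prime_of_mem_primeFactors hp
  rw [ArithmeticFunction.mul_apply, Nat.sum_divisorsAntidiagonal (f := fun a b => muR a * beF δ b),
    hp'.sum_divisors]
  have h1 : p / p = 1 := Nat.div_self hp'.pos
  have h2 : be δ p = (p : ℝ) ^ (2 * δ) - 1 := by
    have := sum_be δ hp'.ne_zero
    rw [hp'.sum_divisors, be_one] at this
    linarith
  have h3 : muR p = -1 := by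
    rw [muR_apply]
    unfold mu
    rw [ArithmeticFunction.moebius_apply_prime hp']
    simp
  have h4 : muR 1 = 1 := muR_mult.1
  rw [h1, Nat.div_one, h3, h4, (beF_mult δ).1, beF_apply, h2]
  ring

lemma mu_sqf {m : ℕ} (hm : Squarefree m) : mu m = ∏ _p ∈ m.primeFactors, (-1 : ℝ) := by
  rw [← muR_apply, ← muR_mult.prod_primeFactors hm]
  apply Finset.prod_congr rfl
  intro p hp
  rw [muR_apply]
  unfold mu
  rw [ArithmeticFunction.moebius_apply_prime (Nat.prime_of_mem_primeFactors hp)]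
  simp

lemma aa_le {N : ℕ} {δ : ℝ} {m : ℕ} (hm : 1 ≤ m) (hmN : m ≤ N) : aa N δ m = (muR * beF δ) m - mu m := by
  have hm0 : m ≠ 0 := by omega
  rw [ArithmeticFunction.mul_apply, Nat.sum_divisorsAntidiagonal (f := fun a b => muR a * beF δ b)]
  unfold aa
  have h1 : m.divisors.filter (fun n => n ≤ N ∧ n < m) = m.divisors.erase m := by
    ext n
    rw [Finset.mem_filter, Finset.mem_erase]
    constructor
    · rintro ⟨h1, h2⟩
      exact ⟨by omega, h1⟩
    · rintro ⟨h1, h2⟩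
      have := Nat.divisor_le h2
      exact ⟨h2, by omega, by omega⟩
  have h2 := Finset.add_sum_erase m.divisors (fun n => muR n * beF δ (m / n)) (Nat.mem_divisors_self m hm0)
  simp only [Nat.div_self (Nat.pos_of_ne_zero hm0), (beF_mult δ).1, mul_one] at h2
  rw [h1, ← h2, muR_apply]
  simp only [muR_apply, beF_apply]
  ring

lemma aa_mu {N : ℕ} {δ : ℝ} {m : ℕ} (hm : 1 ≤ m) (hmN : m ≤ N) :
    aa N δ m * mu m = mu m ^ 2 * (∏ p ∈ m.primeFactors, (2 - (p : ℝ) ^ (2 * δ)) - 1) := by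
  by_cases hs : Squarefree m
  · rw [aa_le hm hmN, muR_beF_sqf hs]
    have h1 : ∏ p ∈ m.primeFactors, ((p : ℝ) ^ (2 * δ) - 2) =
        mu m * ∏ p ∈ m.primeFactors, (2 - (p : ℝ) ^ (2 * δ)) := by
      rw [mu_sqf hs, ← Finset.prod_mul_distrib]
      apply Finset.prod_congr rfl
      intro p _
      ring
    rw [h1]
    ring
  · have h1 : mu m = 0 := by
      unfold mu
      rw [ArithmeticFunction.moebius_eq_zero_of_not_squarefree hs]
      simp
    rw [h1]
    ring

/-! ### The Dirichlet series -/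

lemma term_natpow {f : ℕ → ℂ} {s : ℂ} (n : ℕ) (h0 : f 0 = 0) :
    LSeries.term f s n = f n * (n : ℂ) ^ (-s) := by
  rcases Nat.eq_zero_or_pos n with rfl | hn
  · rw [LSeries.term_zero, h0, zero_mul]
  · rw [LSeries.term_of_ne_zero hn.ne', Complex.cpow_neg, div_eq_mul_inv]

lemma hasSum_mu {s : ℂ} (hs : 1 < s.re) :
    LSeriesHasSum (fun n => ((mu n : ℝ) : ℂ)) s (riemannZeta s)⁻¹ := by
  have h1 := (ArithmeticFunction.LSeriesSummable_moebius_iff.mpr hs).LSeriesHasSum
  have h2 := ArithmeticFunction.LSeries_zeta_mul_Lseries_moebius hs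
  rw [ArithmeticFunction.LSeries_zeta_eq_riemannZeta hs] at h2
  have h3 : LSeries (fun n => ((moebius n : ℤ) : ℂ)) s = (riemannZeta s)⁻¹ := by
    exact eq_inv_of_mul_eq_one_right h2
  rw [h3] at h1
  have h4 : (fun n => ((mu n : ℝ) : ℂ)) = (fun n => ((moebius n : ℤ) : ℂ)) := by
    funext n
    unfold mu
    simp
  rw [h4]
  exact h1

lemma hasSum_f {δ : ℝ} {s : ℂ} (hs : 1 + 2 * δ < s.re) :
    LSeriesHasSum (fun n => ((fF δ n : ℝ) : ℂ)) s (riemannZeta (s - ((2 * δ : ℝ) : ℂ))) := by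
  have h1 : 1 < (s - ((2 * δ : ℝ) : ℂ)).re := by
    simp only [Complex.sub_re, Complex.ofReal_re]
    linarith
  have h2 := LSeriesHasSum_one h1
  unfold LSeriesHasSum at h2 ⊢
  have h3 : LSeries.term (fun n => ((fF δ n : ℝ) : ℂ)) s =
      LSeries.term 1 (s - ((2 * δ : ℝ) : ℂ)) := by
    funext n
    rcases Nat.eq_zero_or_pos n with rfl | hn
    · simp
    · have hn0 : (n : ℂ) ≠ 0 := by exact_mod_cast hn.ne'
      rw [LSeries.term_of_ne_zero hn.ne', LSeries.term_of_ne_zero hn.ne', Complex.cpow_sub _ _ hn0,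
        fF_apply δ hn.ne']
      have h4 : (((n : ℝ) ^ (2 * δ) : ℝ) : ℂ) = (n : ℂ) ^ ((2 * δ : ℝ) : ℂ) := by
        rw [Complex.ofReal_cpow (Nat.cast_nonneg n)]
        simp
      rw [h4]
      have h5 : (n : ℂ) ^ s ≠ 0 := by
        rw [Complex.cpow_ne_zero_iff]
        exact Or.inl hn0
      have h6 : (n : ℂ) ^ ((2 * δ : ℝ) : ℂ) ≠ 0 := by
        rw [Complex.cpow_ne_zero_iff]
        exact Or.inl hn0
      simp only [Pi.one_apply]
      field_simp
  rw [h3]
  exact h2

lemma hasSum_be {δ : ℝ} {s : ℂ} (hδ : 0 < δ) (hs : 1 + 2 * δ < s.re) :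
    LSeriesHasSum (fun n => ((be δ n : ℝ) : ℂ)) s (riemannZeta (s - ((2 * δ : ℝ) : ℂ)) / riemannZeta s) := by
  have h1 := (hasSum_mu (s := s) (by linarith)).convolution (hasSum_f hs)
  have h2 : LSeries.convolution (fun n => ((mu n : ℝ) : ℂ)) (fun n => ((fF δ n : ℝ) : ℂ)) =
      (fun n => ((be δ n : ℝ) : ℂ)) := by
    funext n
    rw [LSeries.convolution_def, ← beF_apply]
    unfold beF
    rw [ArithmeticFunction.mul_apply]
    push_cast
    apply Finset.sum_congr rfl
    intro x _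
    rw [muR_apply]
  rw [h2] at h1
  rw [div_eq_inv_mul]
  exact h1

lemma hasSum_be' {δ : ℝ} {s : ℂ} (hδ : 0 < δ) (hs : 1 + 2 * δ < s.re) :
    LSeriesHasSum (fun n => if n = 1 then (0 : ℂ) else ((be δ n : ℝ) : ℂ)) s
      (riemannZeta (s - ((2 * δ : ℝ) : ℂ)) / riemannZeta s - 1) := by
  have h1 := hasSum_be hδ hs
  have h2 : LSeriesHasSum (fun n => if n = 1 then (1 : ℂ) else 0) s 1 := by
    unfold LSeriesHasSum
    have h3 : LSeries.term (fun n => if n = 1 then (1 : ℂ) else 0) s =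
        fun n => if n = 1 then (1 : ℂ) else 0 := by
      funext n
      rcases Nat.eq_zero_or_pos n with rfl | hn
      · simp
      · rw [LSeries.term_of_ne_zero hn.ne']
        by_cases h : n = 1
        · subst h; simp
        · simp [h]
    rw [h3]
    exact hasSum_ite_eq 1 (1 : ℂ)
  have h3 := h1.sub h2
  have h4 : ((fun n => ((be δ n : ℝ) : ℂ)) - (fun n => if n = 1 then (1 : ℂ) else 0)) =
      (fun n => if n = 1 then (0 : ℂ) else ((be δ n : ℝ) : ℂ)) := by
    funext n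
    simp only [Pi.sub_apply]
    by_cases h : n = 1
    · subst h
      simp [be_one]
    · simp [h]
  rw [h4] at h3
  exact h3

lemma hasSum_A (N : ℕ) (s : ℂ) :
    LSeriesHasSum (fun n => if n ∈ Finset.Icc 1 N then ((mu n : ℝ) : ℂ) else 0) s (A N s) := by
  unfold LSeriesHasSum A
  have h3 : LSeries.term (fun n => if n ∈ Finset.Icc 1 N then ((mu n : ℝ) : ℂ) else 0) s =
      fun n => if n ∈ Finset.Icc 1 N then ((mu n : ℝ) : ℂ) * (n : ℂ) ^ (-s) else 0 := by
    funext n
    rw [term_natpow]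
    · by_cases h : n ∈ Finset.Icc 1 N
      · rw [if_pos h, if_pos h]
      · rw [if_neg h, if_neg h, zero_mul]
    · simp
  rw [h3]
  have h4 : ∑ n ∈ Finset.Icc 1 N, ((mu n : ℝ) : ℂ) * (n : ℂ) ^ (-s) =
      ∑ n ∈ Finset.Icc 1 N, (if n ∈ Finset.Icc 1 N then ((mu n : ℝ) : ℂ) * (n : ℂ) ^ (-s) else 0) := by
    apply Finset.sum_congr rfl
    intro n hn
    rw [if_pos hn]
  rw [h4]
  apply hasSum_sum_of_ne_finset_zero
  intro n hn
  rw [if_neg hn]

theorem t_DS : S_DS := by
  intro N δ hδ _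
  refine ⟨fun l hl => aa_bound hδ hl, fun m hm hmN => aa_mu hm hmN, fun s hs => ?_⟩
  have h1 := (hasSum_A N s).convolution (hasSum_be' hδ hs)
  unfold LSeriesHasSum at h1
  have h2 : LSeries.term (LSeries.convolution (fun n => if n ∈ Finset.Icc 1 N then ((mu n : ℝ) : ℂ) else 0)
      (fun n => if n = 1 then (0 : ℂ) else ((be δ n : ℝ) : ℂ))) s =
      fun l : ℕ => (aa N δ l : ℂ) * (l : ℂ) ^ (-s) := by
    funext l
    rw [term_natpow l (by simp)]
    congr 1
    rw [LSeries.convolution_def]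
    beta_reduce
    rw [Nat.sum_divisorsAntidiagonal
      (f := fun a b => (if a ∈ Finset.Icc 1 N then ((mu a : ℝ) : ℂ) else 0) *
        (if b = 1 then (0 : ℂ) else ((be δ b : ℝ) : ℂ)))]
    unfold aa
    rw [Complex.ofReal_sum, Finset.sum_filter]
    apply Finset.sum_congr rfl
    intro n hn
    have h3 := Nat.mem_divisors.1 hn
    have hl : 0 < l := Nat.pos_of_ne_zero h3.2
    have hn1 : 1 ≤ n := Nat.pos_of_dvd_of_pos h3.1 hl
    have hnl : n ≤ l := Nat.le_of_dvd hl h3.1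
    have h4 : l / n = 1 ↔ n = l := by
      constructor
      · intro h
        have := Nat.div_mul_cancel h3.1
        rw [h, one_mul] at this
        exact this
      · rintro rfl
        exact Nat.div_self hn1
    by_cases ha : n ≤ N
    · by_cases hb : n = l
      · rw [if_pos (h4.2 hb), mul_zero, if_neg (by omega)]
      · rw [if_neg (fun h => hb (h4.1 h)), if_pos (Finset.mem_Icc.2 ⟨hn1, ha⟩), if_pos ⟨ha, by omega⟩]
        push_cast
        ring
    · rw [if_neg (fun h => ha (Finset.mem_Icc.1 h).2), zero_mul, if_neg (fun h => ha h.1)]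
  rw [h2] at h1
  exact h1

end Pool.Agent.H153.HBDS
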