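import Pool.Agent.H153.HB.K2c

set_option autoImplicit false

open Complex MeasureTheory Filter Topology Set

namespace Pool.Agent.H153.HBK

open Pool.Agent.Y763.HB Pool.Agent.H101.HB

/-- the product `R W` on the line -/
noncomputable def rw' (P : Polynomial ℝ) (T δ t : ℝ) : ℂ := R δ (lc T δ t) * W P T (1 / 2 + δ) (lc T δ t)

/-- the coefficient -/
noncomputable def kap (N : ℕ) (T δ : ℝ) (m l : ℕ) : ℝ :=
  aa N δ l * mu m * Real.exp ((1 / Real.log T) * Real.log m - (1 + 2 * δ + 1 / Real.log T) * Real.log l)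

lemma aa_zero (N : ℕ) (δ : ℝ) : aa N δ 0 = 0 := by
  unfold aa
  simp

lemma kap_zero (N : ℕ) (T δ : ℝ) (m : ℕ) : kap N T δ m 0 = 0 := by
  unfold kap
  rw [aa_zero]
  ring

/-- the term -/
noncomputable def FF (P : Polynomial ℝ) (N : ℕ) (T δ : ℝ) (m l : ℕ) (t : ℝ) : ℂ :=
  ((kap N T δ m l : ℝ) : ℂ) * (cexp (I * ((t * Real.log ((m : ℝ) / l) : ℝ) : ℂ)) * rw' P T δ t)

lemma cpow_pair {T δ t : ℝ} {m l : ℕ} (hm : 1 ≤ m) (hl : 1 ≤ l) :
    (m : ℂ) ^ (-(((1 + 2 * δ : ℝ) : ℂ) - lc T δ t)) * (l : ℂ) ^ (-(lc T δ t)) =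
      ((Real.exp ((1 / Real.log T) * Real.log m - (1 + 2 * δ + 1 / Real.log T) * Real.log l) : ℝ) : ℂ) *
        cexp (I * ((t * Real.log ((m : ℝ) / l) : ℝ) : ℂ)) := by
  have hm0 : (m : ℂ) ≠ 0 := by exact_mod_cast (by omega : m ≠ 0)
  have hl0 : (l : ℂ) ≠ 0 := by exact_mod_cast (by omega : l ≠ 0)
  have hm1 : (m : ℝ) ≠ 0 := by exact_mod_cast (by omega : m ≠ 0)
  have hl1 : (l : ℝ) ≠ 0 := by exact_mod_cast (by omega : l ≠ 0)
  rw [Complex.cpow_def_of_ne_zero hm0, Complex.cpow_def_of_ne_zero hl0, ← Complex.exp_add,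
    Real.log_div hm1 hl1, Complex.ofReal_exp, ← Complex.exp_add, ← Complex.natCast_log,
    ← Complex.natCast_log]
  congr 1
  unfold lc
  push_cast
  ring

lemma FF_hasSum (hDS : S_DS) (P : Polynomial ℝ) {N : ℕ} {T δ t : ℝ} (hT : 3 ≤ T) (hδ : 0 < δ) (hδ4 : δ ≤ 1 / 4)
    {m : ℕ} (hm : 1 ≤ m) :
    HasSum (fun l => FF P N T δ m l t) ((((mu m : ℝ) : ℂ) * (m : ℂ) ^ (-(((1 + 2 * δ : ℝ) : ℂ) - lc T δ t))) *
      (A N (lc T δ t) * (Z δ (lc T δ t) - 1)) * rw' P T δ t) := by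
  have hL := one_le_log hT
  have hη : 0 < 1 / Real.log T := by positivity
  have h1 := (hDS N δ hδ hδ4).2.2 (lc T δ t) (by rw [lc_re]; linarith)
  have h2 := (h1.mul_left (((mu m : ℝ) : ℂ) * (m : ℂ) ^ (-(((1 + 2 * δ : ℝ) : ℂ) - lc T δ t)))).mul_right
    (rw' P T δ t)
  have h3 : (fun l : ℕ => ((mu m : ℝ) : ℂ) * (m : ℂ) ^ (-(((1 + 2 * δ : ℝ) : ℂ) - lc T δ t)) *
      ((aa N δ l : ℂ) * (l : ℂ) ^ (-(lc T δ t))) * rw' P T δ t) = fun l => FF P N T δ m l t := by
    funext l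
    rcases Nat.eq_zero_or_pos l with rfl | hl
    · unfold FF
      rw [kap_zero, aa_zero]
      simp
    · unfold FF kap
      have := cpow_pair (T := T) (δ := δ) (t := t) hm hl
      calc _ = ((mu m : ℝ) : ℂ) * (aa N δ l : ℂ) * ((m : ℂ) ^ (-(((1 + 2 * δ : ℝ) : ℂ) - lc T δ t)) *
            (l : ℂ) ^ (-(lc T δ t))) * rw' P T δ t := by ring
        _ = _ := by
          rw [this]
          push_cast
          ring
  rw [h3] at h2
  exact h2

lemma kap_bound {N : ℕ} {T δ : ℝ} (hDS : S_DS) (hT : 3 ≤ T) (hδ : 0 < δ) (hδ4 : δ ≤ 1 / 4) {m : ℕ} (hm : 1 ≤ m)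
    (hmT : (m : ℝ) ≤ T) {l : ℕ} (hl : 1 ≤ l) :
    |kap N T δ m l| ≤ 2 * δ * Real.exp 1 * (Real.log l * (l : ℝ) ^ (-(1 + 1 / Real.log T))) ∧
    |kap N T δ m l| ≤ Real.exp 1 * (l : ℝ) ^ (-(1 + 1 / Real.log T)) := by
  have hL := one_le_log hT
  have hη : 0 < 1 / Real.log T := by positivity
  have hl1 : (1 : ℝ) ≤ l := by exact_mod_cast hl
  have hl0 : (0 : ℝ) < l := by linarith
  have hm0 : (0 : ℝ) < m := by exact_mod_cast hm
  have hlog : 0 ≤ Real.log l := Real.log_nonneg hl1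
  have h1 := (hDS N δ hδ hδ4).1 l hl
  have h2 : (l : ℝ) ^ (2 * δ) = Real.exp (2 * δ * Real.log l) := by
    rw [Real.rpow_def_of_pos hl0]
    congr 1
    ring
  have h3 : Real.exp (2 * δ * Real.log l) - 1 ≤ 2 * δ * Real.log l * Real.exp (2 * δ * Real.log l) := by
    have h4 := Real.add_one_le_exp (-(2 * δ * Real.log l))
    have h5 : Real.exp (-(2 * δ * Real.log l)) * Real.exp (2 * δ * Real.log l) = 1 := by
      rw [← Real.exp_add]; simp
    nlinarith [Real.exp_pos (2 * δ * Real.log l)]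
  have h6 : Real.exp ((1 / Real.log T) * Real.log m - (1 + 2 * δ + 1 / Real.log T) * Real.log l) =
      (m : ℝ) ^ (1 / Real.log T) * ((l : ℝ) ^ (-(1 + 1 / Real.log T)) * Real.exp (-(2 * δ * Real.log l))) := by
    rw [Real.rpow_def_of_pos hm0, Real.rpow_def_of_pos hl0, ← Real.exp_add, ← Real.exp_add]
    congr 1
    ring
  have h7 := rpow_le_e hT hmT
  have h8 : |kap N T δ m l| ≤ (Real.exp (2 * δ * Real.log l) - 1) * (Real.exp 1 *
      ((l : ℝ) ^ (-(1 + 1 / Real.log T)) * Real.exp (-(2 * δ * Real.log l)))) := by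
    unfold kap
    rw [abs_mul, abs_mul, abs_of_pos (Real.exp_pos _), h6]
    rw [h2] at h1
    have h9 : 0 ≤ Real.exp (2 * δ * Real.log l) - 1 := (abs_nonneg _).trans h1
    have h10 : |aa N δ l| * |mu m| ≤ (Real.exp (2 * δ * Real.log l) - 1) * 1 :=
      mul_le_mul h1 (mu_abs m) (abs_nonneg _) h9
    rw [mul_one] at h10
    apply mul_le_mul h10 _ (by positivity) h9
    exact mul_le_mul_of_nonneg_right h7 (by positivity)
  have h11 : Real.exp (2 * δ * Real.log l) * Real.exp (-(2 * δ * Real.log l)) = 1 := by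
    rw [← Real.exp_add]; simp
  have hpos : 0 ≤ (l : ℝ) ^ (-(1 + 1 / Real.log T)) := by positivity
  constructor
  · refine h8.trans ?_
    calc _ ≤ (2 * δ * Real.log l * Real.exp (2 * δ * Real.log l)) * (Real.exp 1 *
          ((l : ℝ) ^ (-(1 + 1 / Real.log T)) * Real.exp (-(2 * δ * Real.log l)))) :=
          mul_le_mul_of_nonneg_right h3 (by positivity)
      _ = 2 * δ * Real.exp 1 * (Real.log l * (l : ℝ) ^ (-(1 + 1 / Real.log T))) *
          (Real.exp (2 * δ * Real.log l) * Real.exp (-(2 * δ * Real.log l))) := by ring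
      _ = _ := by rw [h11, mul_one]
  · refine h8.trans ?_
    calc _ ≤ (Real.exp (2 * δ * Real.log l)) * (Real.exp 1 *
          ((l : ℝ) ^ (-(1 + 1 / Real.log T)) * Real.exp (-(2 * δ * Real.log l)))) :=
          mul_le_mul_of_nonneg_right (by linarith) (by positivity)
      _ = Real.exp 1 * (l : ℝ) ^ (-(1 + 1 / Real.log T)) *
          (Real.exp (2 * δ * Real.log l) * Real.exp (-(2 * δ * Real.log l))) := by ring
      _ = _ := by rw [h11, mul_one]

lemma norm_cexp_I (x : ℝ) : ‖cexp (I * (x : ℂ))‖ = 1 := by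
  rw [mul_comm]
  exact Complex.norm_exp_ofReal_mul_I x

lemma norm_FF (P : Polynomial ℝ) (N : ℕ) (T δ : ℝ) (m l : ℕ) (t : ℝ) :
    ‖FF P N T δ m l t‖ = |kap N T δ m l| * ‖rw' P T δ t‖ := by
  unfold FF
  rw [norm_mul, norm_mul, norm_cexp_I, one_mul, Complex.norm_real, Real.norm_eq_abs]

lemma rw_integrable (hR : S_R) (P : Polynomial ℝ) {T δ : ℝ} (hT : 3 ≤ T) (hδ : 0 < δ) (hδ8 : δ ≤ 1 / 8) :
    Integrable (fun t : ℝ => rw' P T δ t) := by
  obtain ⟨CR, hCR, hR⟩ := hR
  obtain ⟨CW, hCW, hW⟩ := W_bd P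
  have hL := one_le_log hT
  have hη : 0 < 1 / Real.log T := by positivity
  have hη1 : 1 / Real.log T ≤ 1 := by
    rw [div_le_one (by linarith)]
    exact hL
  have h := intG (f := fun s => R δ s * W P T (1 / 2 + δ) s) (x := 1 + 2 * δ + 1 / Real.log T)
    (C := CR * CW) (T := T) (k := 0) (by linarith) (by positivity) (fun y => by
      have e : ((1 + 2 * δ + 1 / Real.log T : ℝ) : ℂ) + (y : ℂ) * I = lc T δ y := rfl
      rw [e]
      exact ((hR δ hδ hδ8).1 (lc T δ y) (by rw [lc_re]; linarith) (by rw [lc_re]; linarith)).1.mul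
        (W_diff P T (1 / 2 + δ) _)) (fun y => by
      have e : ((1 + 2 * δ + 1 / Real.log T : ℝ) : ℂ) + (y : ℂ) * I = lc T δ y := rfl
      rw [e, norm_mul, pow_zero, mul_one, mul_assoc]
      have b3 := ((hR δ hδ hδ8).1 (lc T δ y) (by rw [lc_re]; linarith) (by rw [lc_re]; linarith)).2.1
      have b6 := hW T (1 / 2 + δ) (by linarith) (lc T δ y) (by
        rw [lc_re, abs_le]
        constructor <;> linarith)
      rw [lc_im] at b6
      exact mul_le_mul b3 b6 (norm_nonneg _) hCR.le)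
  exact h

lemma FF_integrable {P : Polynomial ℝ} {T δ : ℝ} (h : Integrable (fun t : ℝ => rw' P T δ t)) (N m l : ℕ) :
    Integrable (fun t : ℝ => FF P N T δ m l t) := by
  unfold FF
  apply Integrable.const_mul
  refine h.bdd_mul (c := 1) ?_ (Eventually.of_forall fun t => ?_)
  · apply Continuous.aestronglyMeasurable
    fun_prop
  · rw [norm_cexp_I]

theorem t_K2I : S_K2I := by
  intro hR hIBP hDS hOS P
  obtain ⟨CI, hCI, hI⟩ := hIBP hR P
  obtain ⟨CO, hCO, hO⟩ := hOS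
  refine ⟨2 * Real.exp 1 * CI * CO, by positivity, ?_⟩
  intro T hT N hN hNT δ hδ hδL
  have hL := one_le_log hT
  have hδ8 := delta_le hT hδ hδL
  have hη : 0 < 1 / Real.log T := by positivity
  have hη1 : 1 / Real.log T ≤ 1 := by
    rw [div_le_one (by linarith)]
    exact hL
  have hrw := rw_integrable hR P hT hδ hδ8
  set J : ℝ := ∫ t : ℝ, ‖rw' P T δ t‖ with hJ
  have hJ0 : 0 ≤ J := integral_nonneg fun t => norm_nonneg _
  set G : ℕ → ℕ → ℂ := fun m l => ∫ t : ℝ, FF P N T δ m l t with hG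
  -- the integrand is a sum
  have hpt : ∀ t : ℝ, HasSum (fun l => ∑ m ∈ Finset.Icc 1 N, FF P N T δ m l t)
      (A N (lc T δ t) * (Z δ (lc T δ t) - 1) * A N (((1 + 2 * δ : ℝ) : ℂ) - lc T δ t) *
        R δ (lc T δ t) * W P T (1 / 2 + δ) (lc T δ t)) := by
    intro t
    have h1 : HasSum (fun l => ∑ m ∈ Finset.Icc 1 N, FF P N T δ m l t)
        (∑ m ∈ Finset.Icc 1 N, (((mu m : ℝ) : ℂ) * (m : ℂ) ^ (-(((1 + 2 * δ : ℝ) : ℂ) - lc T δ t))) *
      (A N (lc T δ t) * (Z δ (lc T δ t) - 1)) * rw' P T δ t) :=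
      hasSum_sum fun m hm => FF_hasSum hDS P hT hδ (by linarith) (Finset.mem_Icc.1 hm).1
    have h2 : (∑ m ∈ Finset.Icc 1 N, (((mu m : ℝ) : ℂ) * (m : ℂ) ^ (-(((1 + 2 * δ : ℝ) : ℂ) - lc T δ t))) *
      (A N (lc T δ t) * (Z δ (lc T δ t) - 1)) * rw' P T δ t) =
        A N (lc T δ t) * (Z δ (lc T δ t) - 1) * A N (((1 + 2 * δ : ℝ) : ℂ) - lc T δ t) *
        R δ (lc T δ t) * W P T (1 / 2 + δ) (lc T δ t) := by
      rw [← Finset.sum_mul, ← Finset.sum_mul]
      have h3 : (∑ m ∈ Finset.Icc 1 N, (((mu m : ℝ) : ℂ) * (m : ℂ) ^ (-(((1 + 2 * δ : ℝ) : ℂ) - lc T δ t)))) =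
        A N (((1 + 2 * δ : ℝ) : ℂ) - lc T δ t) := rfl
      rw [h3]
      unfold rw'
      ring
    rw [h2] at h1
    exact h1
  have hint : ∀ l : ℕ, Integrable (fun t : ℝ => ∑ m ∈ Finset.Icc 1 N, FF P N T δ m l t) := fun l =>
    integrable_finsetSum _ fun m _ => FF_integrable hrw N m l
  have hkap0 : ∀ m ∈ Finset.Icc 1 N, ∀ l : ℕ, |kap N T δ m l| ≤ Real.exp 1 * (l : ℝ) ^ (-(1 + 1 / Real.log T)) := by
    intro m hm l
    have hm' := Finset.mem_Icc.1 hm
    rcases Nat.eq_zero_or_pos l with rfl | hl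
    · rw [kap_zero, abs_zero]
      positivity
    · exact (kap_bound hDS hT hδ (by linarith) hm'.1 (le_trans (by exact_mod_cast hm'.2) hNT) hl).2
  have hsumm : Summable fun l : ℕ => ∫ t : ℝ, ‖∑ m ∈ Finset.Icc 1 N, FF P N T δ m l t‖ := by
    refine Summable.of_nonneg_of_le (fun l => integral_nonneg fun t => norm_nonneg _) (fun l => ?_)
      ((summable_nat hη).mul_left (N * Real.exp 1 * J))
    calc ∫ t : ℝ, ‖∑ m ∈ Finset.Icc 1 N, FF P N T δ m l t‖
        ≤ ∫ t : ℝ, (N * (Real.exp 1 * (l : ℝ) ^ (-(1 + 1 / Real.log T)))) * ‖rw' P T δ t‖ := by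
          apply integral_mono (hint l).norm (hrw.norm.const_mul _)
          intro t
          refine (norm_sum_le _ _).trans ?_
          calc ∑ m ∈ Finset.Icc 1 N, ‖FF P N T δ m l t‖
              ≤ ∑ m ∈ Finset.Icc 1 N, (Real.exp 1 * (l : ℝ) ^ (-(1 + 1 / Real.log T))) * ‖rw' P T δ t‖ := by
                refine Finset.sum_le_sum fun m hm => ?_
                rw [norm_FF]
                exact mul_le_mul_of_nonneg_right (hkap0 m hm l) (norm_nonneg _)
            _ = _ := by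
                rw [Finset.sum_const, Nat.card_Icc, nsmul_eq_mul, Nat.add_sub_cancel]
                ring
      _ = N * Real.exp 1 * J * (l : ℝ) ^ (-(1 + 1 / Real.log T)) := by
          rw [integral_const_mul]
          ring
  have hHS := hasSum_integral_of_summable_integral_norm hint hsumm
  have e1 : (fun t : ℝ => ∑' l : ℕ, ∑ m ∈ Finset.Icc 1 N, FF P N T δ m l t) = fun t : ℝ =>
      A N (lc T δ t) * (Z δ (lc T δ t) - 1) * A N (((1 + 2 * δ : ℝ) : ℂ) - lc T δ t) *
        R δ (lc T δ t) * W P T (1 / 2 + δ) (lc T δ t) := by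
    funext t
    exact (hpt t).tsum_eq
  rw [e1] at hHS
  have e2 : (fun l : ℕ => ∫ t : ℝ, ∑ m ∈ Finset.Icc 1 N, FF P N T δ m l t) =
      fun l => ∑ m ∈ Finset.Icc 1 N, G m l := by
    funext l
    exact integral_finsetSum _ fun m _ => FF_integrable hrw N m l
  rw [e2] at hHS
  -- the diagonal
  have hdiag : HasSum (fun l : ℕ => ∑ m ∈ Finset.Icc 1 N, (if l = m then G m m else 0))
      (∑ m ∈ Finset.Icc 1 N, G m m) := hasSum_sum fun m _ => hasSum_ite_eq m (G m m)
  have hGmm : ∑ m ∈ Finset.Icc 1 N, G m m = -((Dd N δ : ℂ) * ∫ t : ℝ, rw' P T δ t) := by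
    have h1 : ∀ m ∈ Finset.Icc 1 N, G m m =
        -((mu m ^ 2 * (m : ℝ) ^ (-(1 + 2 * δ)) * (1 - ∏ p ∈ m.primeFactors, (2 - (p : ℝ) ^ (2 * δ))) : ℝ) : ℂ) *
          ∫ t : ℝ, rw' P T δ t := by
      intro m hm
      have hm' := Finset.mem_Icc.1 hm
      have hm0 : (0 : ℝ) < m := by exact_mod_cast hm'.1
      have h2 : G m m = ((kap N T δ m m : ℝ) : ℂ) * ∫ t : ℝ, rw' P T δ t := by
        rw [hG]
        simp only
        rw [← integral_const_mul]
        congr 1
        funext t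
        unfold FF
        rw [div_self hm0.ne', Real.log_one, mul_zero, Complex.ofReal_zero, mul_zero, Complex.exp_zero, one_mul]
      rw [h2]
      congr 1
      rw [← Complex.ofReal_neg]
      congr 1
      unfold kap
      have h3 := (hDS N δ hδ (by linarith)).2.1 m hm'.1 hm'.2
      rw [h3]
      have h4 : Real.exp ((1 / Real.log T) * Real.log m - (1 + 2 * δ + 1 / Real.log T) * Real.log m) =
          (m : ℝ) ^ (-(1 + 2 * δ)) := by
        rw [Real.rpow_def_of_pos hm0]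
        congr 1
        ring
      rw [h4]
      ring
    rw [Finset.sum_congr rfl h1, ← Finset.sum_mul]
    unfold Dd
    rw [← neg_mul]
    congr 1
    rw [Complex.ofReal_sum, ← Finset.sum_neg_distrib]
  have hsub := hHS.sub hdiag
  rw [hGmm, sub_neg_eq_add] at hsub
  -- the bound
  have hbd : HasSum (fun l : ℕ => ∑ m ∈ Finset.Icc 1 N, (2 * δ * Real.exp 1 * (CI * Real.log T)) *
      (if l = 0 ∨ l = m then (0 : ℝ) else
        Real.log l * (l : ℝ) ^ (-(1 + 1 / Real.log T)) / |Real.log ((m : ℝ) / l)|))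
      (∑ m ∈ Finset.Icc 1 N, (2 * δ * Real.exp 1 * (CI * Real.log T)) *
      ∑' l : ℕ, (if l = 0 ∨ l = m then (0 : ℝ) else
        Real.log l * (l : ℝ) ^ (-(1 + 1 / Real.log T)) / |Real.log ((m : ℝ) / l)|)) := by
    refine hasSum_sum fun m hm => ?_
    have hm' := Finset.mem_Icc.1 hm
    exact ((hO T hT m hm'.1 (le_trans (by exact_mod_cast hm'.2) hNT)).1.hasSum).mul_left _
  have hle : ∀ l : ℕ, ‖∑ m ∈ Finset.Icc 1 N, G m l - ∑ m ∈ Finset.Icc 1 N, (if l = m then G m m else 0)‖ ≤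
      ∑ m ∈ Finset.Icc 1 N, (2 * δ * Real.exp 1 * (CI * Real.log T)) *
      (if l = 0 ∨ l = m then (0 : ℝ) else
        Real.log l * (l : ℝ) ^ (-(1 + 1 / Real.log T)) / |Real.log ((m : ℝ) / l)|) := by
    intro l
    rw [← Finset.sum_sub_distrib]
    refine (norm_sum_le _ _).trans (Finset.sum_le_sum fun m hm => ?_)
    have hm' := Finset.mem_Icc.1 hm
    by_cases hlm : l = m
    · subst hlm
      rw [if_pos rfl, sub_self, norm_zero, if_pos (Or.inr rfl), mul_zero]
    · rw [if_neg hlm, sub_zero]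
      rcases Nat.eq_zero_or_pos l with rfl | hl
      · rw [if_pos (Or.inl rfl), mul_zero]
        have : G m 0 = 0 := by
          rw [hG]
          simp only
          have h2 : (fun t : ℝ => FF P N T δ m 0 t) = fun _ => 0 := by
            funext t
            unfold FF
            rw [kap_zero]
            simp
          rw [h2]
          simp
        rw [this, norm_zero]
      · rw [if_neg (by omega)]
        have hy : Real.log ((m : ℝ) / l) ≠ 0 := by
          have hm0 : (0 : ℝ) < m := by exact_mod_cast hm'.1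
          have hl0 : (0 : ℝ) < l := by exact_mod_cast hl
          rw [Real.log_div hm0.ne' hl0.ne', sub_ne_zero]
          intro h
          have := Real.log_injOn_pos (Set.mem_Ioi.2 hm0) (Set.mem_Ioi.2 hl0) h
          exact hlm (by exact_mod_cast this.symm)
        have h2 : G m l = ((kap N T δ m l : ℝ) : ℂ) * ∫ t : ℝ,
            cexp (I * ((t * Real.log ((m : ℝ) / l) : ℝ) : ℂ)) * rw' P T δ t := by
          rw [hG]
          simp only
          rw [← integral_const_mul]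
          rfl
        have h3 := hI T hT δ hδ hδ8 (1 + 2 * δ + 1 / Real.log T) (by linarith) (by linarith)
          (Real.log ((m : ℝ) / l)) hy
        have h4 : ‖∫ t : ℝ, cexp (I * ((t * Real.log ((m : ℝ) / l) : ℝ) : ℂ)) * rw' P T δ t‖ ≤
            CI * Real.log T / |Real.log ((m : ℝ) / l)| := h3
        have h5 := (kap_bound hDS hT hδ (by linarith) hm'.1 (le_trans (by exact_mod_cast hm'.2) hNT) hl
          (N := N)).1
        rw [h2, norm_mul, Complex.norm_real, Real.norm_eq_abs]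
        have hl1 : (1 : ℝ) ≤ l := by exact_mod_cast hl
        have hlog : 0 ≤ Real.log l := Real.log_nonneg hl1
        calc |kap N T δ m l| * ‖∫ t : ℝ, cexp (I * ((t * Real.log ((m : ℝ) / l) : ℝ) : ℂ)) * rw' P T δ t‖
            ≤ (2 * δ * Real.exp 1 * (Real.log l * (l : ℝ) ^ (-(1 + 1 / Real.log T)))) *
              (CI * Real.log T / |Real.log ((m : ℝ) / l)|) :=
              mul_le_mul h5 h4 (norm_nonneg _) (by positivity)
          _ = _ := by ring
  have hfin := hsub.norm_le_of_bounded hbd hle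
  have e3 : (∫ t : ℝ, rw' P T δ t) = ∫ t : ℝ, R δ (lc T δ t) * W P T (1 / 2 + δ) (lc T δ t) := rfl
  rw [e3] at hfin
  refine hfin.trans ?_
  calc ∑ m ∈ Finset.Icc 1 N, (2 * δ * Real.exp 1 * (CI * Real.log T)) *
      ∑' l : ℕ, (if l = 0 ∨ l = m then (0 : ℝ) else
        Real.log l * (l : ℝ) ^ (-(1 + 1 / Real.log T)) / |Real.log ((m : ℝ) / l)|)
      ≤ ∑ m ∈ Finset.Icc 1 N, (2 * δ * Real.exp 1 * (CI * Real.log T)) * (CO * Real.log T ^ 3) := by
        refine Finset.sum_le_sum fun m hm => ?_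
        have hm' := Finset.mem_Icc.1 hm
        exact mul_le_mul_of_nonneg_left (hO T hT m hm'.1 (le_trans (by exact_mod_cast hm'.2) hNT)).2
          (by positivity)
    _ = 2 * Real.exp 1 * CI * CO * δ * N * Real.log T ^ 4 := by
        rw [Finset.sum_const, Nat.card_Icc, nsmul_eq_mul]
        simp only [Nat.add_sub_cancel]
        ring
    _ ≤ 2 * Real.exp 1 * CI * CO * δ * N * Real.log T ^ 5 := by
        apply mul_le_mul_of_nonneg_left _ (by positivity)
        exact pow_le_pow_right₀ hL (by norm_num)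

end Pool.Agent.H153.HBK
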