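import Pool.Agent.H153.HB.K2c

set_option autoImplicit false

open Complex MeasureTheory Filter Topology Set

namespace Pool.Agent.H153.HBK

open Pool.Agent.Y763.HB Pool.Agent.H101.HB

/-- `‖1 - q‖ ≤ 16 δ log T / (1 + |t|)` -/
lemma norm_one_sub_q {T δ t : ℝ} (hT : 3 ≤ T) (hδ : 0 < δ) :
    ‖1 - q δ (lc T δ t)‖ ≤ 16 * δ * Real.log T / (1 + |t|) := by
  have hL := one_le_log hT
  set η : ℝ := 1 / Real.log T with hηd
  have hη : 0 < η := by positivity
  have hη1 : η ≤ 1 := by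
    rw [hηd, div_le_one (by linarith)]
    exact hL
  set s : ℂ := lc T δ t with hs
  have hre : s.re = 1 + 2 * δ + η := lc_re T δ t
  have him : s.im = t := lc_im T δ t
  have hs0 : s ≠ 0 := by
    intro h
    rw [h] at hre
    simp at hre
    linarith
  have hs1 : s - 1 ≠ 0 := by
    intro h
    have h1 := congrArg Complex.re h
    rw [Complex.sub_re, hre, Complex.one_re, Complex.zero_re] at h1
    linarith
  have h1 : 1 - q δ s = 2 * (δ : ℂ) * (2 * s - 1 - 2 * (δ : ℂ)) / (s * (s - 1)) := by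
    unfold q
    push_cast
    field_simp
    ring
  have hn : 1 + 2 * δ ≤ ‖s‖ := by
    have h2 := Complex.abs_re_le_norm s
    have h3 := le_abs_self s.re
    linarith
  have h2 : ‖2 * s - 1 - 2 * (δ : ℂ)‖ ≤ 4 * ‖s‖ := by
    have h3 : ‖2 * s - 1 - 2 * (δ : ℂ)‖ ≤ ‖2 * s‖ + ‖(1 : ℂ)‖ + ‖2 * (δ : ℂ)‖ :=
      (norm_sub_le _ _).trans (by
        have := norm_sub_le (2 * s) (1 : ℂ)
        linarith)
    have h4 : ‖2 * (δ : ℂ)‖ = 2 * δ := by
      rw [norm_mul, Complex.norm_real, Real.norm_eq_abs, abs_of_pos hδ]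
      simp
    have h5 : ‖2 * s‖ = 2 * ‖s‖ := by
      rw [norm_mul]
      simp
    rw [h4, h5, norm_one] at h3
    linarith
  have h3 : η * (1 + |t|) / 2 ≤ ‖s - 1‖ := by
    have h4 := Complex.abs_re_le_norm (s - 1)
    have h5 := Complex.abs_im_le_norm (s - 1)
    rw [Complex.sub_re, hre, Complex.one_re] at h4
    rw [Complex.sub_im, him, Complex.one_im, sub_zero] at h5
    have h6 := le_abs_self (1 + 2 * δ + η - 1)
    have h7 := abs_nonneg t
    nlinarith
  have hs1' : 0 < ‖s - 1‖ := norm_pos_iff.2 hs1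
  have hs0' : 0 < ‖s‖ := norm_pos_iff.2 hs0
  rw [h1, norm_div, norm_mul, norm_mul, norm_mul]
  have e2 : ‖(2 : ℂ)‖ = 2 := by simp
  have e3 : ‖(δ : ℂ)‖ = δ := by rw [Complex.norm_real, Real.norm_eq_abs, abs_of_pos hδ]
  rw [e2, e3]
  have ht0 := abs_nonneg t
  calc 2 * δ * ‖2 * s - 1 - 2 * (δ : ℂ)‖ / (‖s‖ * ‖s - 1‖)
      ≤ 2 * δ * (4 * ‖s‖) / (‖s‖ * ‖s - 1‖) := by
        apply div_le_div_of_nonneg_right _ (by positivity)
        exact mul_le_mul_of_nonneg_left h2 (by positivity)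
    _ = 8 * δ / ‖s - 1‖ := by
        field_simp
        ring
    _ ≤ 8 * δ / (η * (1 + |t|) / 2) := by
        apply div_le_div_of_nonneg_left (by positivity) (by positivity) h3
    _ = 16 * δ * Real.log T / (1 + |t|) := by
        rw [hηd]
        field_simp
        ring

theorem t_K2II : S_K2II := by
  intro hR P
  obtain ⟨CR, hCR, hR⟩ := hR
  obtain ⟨CW, hCW, hW⟩ := W_bd P
  refine ⟨16 * Real.exp 1 * CR * CW * 8 * (2 * Real.exp 2), by positivity, ?_⟩
  intro T hT N hN hNT δ hδ hδL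
  have hL := one_le_log hT
  have hδ8 := delta_le hT hδ hδL
  have hη : 0 < 1 / Real.log T := by positivity
  have hη1 : 1 / Real.log T ≤ 1 := by
    rw [div_le_one (by linarith)]
    exact hL
  obtain ⟨hgi, hgb⟩ := gauss_int hT
  set K : ℝ := (1 + Real.log T) * (Real.exp 1 * N) *
    (CR * (16 * δ * Real.log T) * (1 + Real.log T) ^ 2) * CW with hK
  have hN0 : (0 : ℝ) ≤ N := Nat.cast_nonneg N
  have hK0 : 0 ≤ K := by positivity
  have hpt : ∀ t : ℝ, ‖A N (lc T δ t) * A N (((1 + 2 * δ : ℝ) : ℂ) - lc T δ t) *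
      (R δ (lc T δ t) * (1 - q δ (lc T δ t)) * Z δ (lc T δ t)) * W P T (1 / 2 + δ) (lc T δ t)‖ ≤
      K * (Real.exp (-(t ^ 2 / T ^ 2)) / (1 + |t|)) := by
    intro t
    have ht := abs_nonneg t
    have b1 := norm_A_le (t := t) hT hδ hN hNT
    have b2 := norm_A'_le (δ := δ) (t := t) hT hNT
    have b3 := ((hR δ hδ hδ8).1 (lc T δ t) (by rw [lc_re]; linarith) (by rw [lc_re]; linarith)).2.1
    have b4 := norm_one_sub_q (t := t) hT hδ
    have b5 := norm_Z_le (t := t) hT hδ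
    have b6 := hW T (1 / 2 + δ) (by linarith) (lc T δ t) (by
      rw [lc_re, abs_le]
      constructor <;> linarith)
    rw [lc_im] at b6
    rw [norm_mul, norm_mul, norm_mul, norm_mul, norm_mul]
    calc ‖A N (lc T δ t)‖ * ‖A N (((1 + 2 * δ : ℝ) : ℂ) - lc T δ t)‖ *
          (‖R δ (lc T δ t)‖ * ‖1 - q δ (lc T δ t)‖ * ‖Z δ (lc T δ t)‖) * ‖W P T (1 / 2 + δ) (lc T δ t)‖
        ≤ (1 + Real.log T) * (Real.exp 1 * N) *
          (CR * (16 * δ * Real.log T / (1 + |t|)) * (1 + Real.log T) ^ 2) *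
            (CW * Real.exp (-(t ^ 2 / T ^ 2))) := by
          gcongr
      _ = K * (Real.exp (-(t ^ 2 / T ^ 2)) / (1 + |t|)) := by
          rw [hK]
          field_simp
  calc _ ≤ ∫ t : ℝ, K * (Real.exp (-(t ^ 2 / T ^ 2)) / (1 + |t|)) :=
        norm_integral_le_of_norm_le (hgi.const_mul K) (Eventually.of_forall hpt)
    _ = K * ∫ t : ℝ, Real.exp (-(t ^ 2 / T ^ 2)) / (1 + |t|) := integral_const_mul _ _
    _ ≤ K * (2 * Real.exp 2 * Real.log T) := mul_le_mul_of_nonneg_left hgb hK0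
    _ ≤ 16 * Real.exp 1 * CR * CW * 8 * (2 * Real.exp 2) * δ * N * Real.log T ^ 5 := by
        rw [hK]
        have h1 : (1 + Real.log T) ^ 3 ≤ 8 * Real.log T ^ 3 := by
          have : (1 + Real.log T) ^ 3 ≤ (2 * Real.log T) ^ 3 :=
            pow_le_pow_left₀ (by linarith) (by linarith) 3
          calc _ ≤ _ := this
            _ = _ := by ring
        have h2 : 0 ≤ 16 * Real.exp 1 * CR * CW * (2 * Real.exp 2) * δ * N * Real.log T ^ 2 := by positivity
        have h3 := mul_le_mul_of_nonneg_left h1 h2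
        calc _ = 16 * Real.exp 1 * CR * CW * (2 * Real.exp 2) * δ * N * Real.log T ^ 2 *
              (1 + Real.log T) ^ 3 := by ring
          _ ≤ _ := h3
          _ = _ := by ring

end Pool.Agent.H153.HBK
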