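import Pool.Agent.H101.HB.Stm

set_option autoImplicit false

open Complex MeasureTheory Filter Topology Set

namespace Pool.Agent.H153.HBS2

open Pool.Agent.Y763.HB Pool.Agent.H101.HB
open ArithmeticFunction (moebius)

lemma D1_succ (N : ℕ) : D1 (N + 1) = D1 N + mu (N + 1) ^ 2 / ((N + 1 : ℕ) : ℝ) := by
  unfold D1 mu
  rw [Finset.sum_Icc_succ_top (by omega)]

lemma S2_succ (N : ℕ) : S2 (N + 1) = S2 N + mu (N + 1) ^ 2 * Real.log ((N + 1 : ℕ) : ℝ) / ((N + 1 : ℕ) : ℝ) := by
  unfold S2
  rw [Finset.sum_Icc_succ_top (by omega)]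

theorem t_S2 : S_S2 := by
  rintro ⟨C, hC, hD⟩
  set a : ℝ := 6 / Real.pi ^ 2 with ha
  have ha0 : 0 < a := by positivity
  have key : ∀ N : ℕ, S2 (N + 1) - D1 (N + 1) * Real.log ((N + 1 : ℕ) : ℝ) ≤
      -(a / 2) * Real.log ((N + 1 : ℕ) : ℝ) ^ 2 + C * Real.log ((N + 1 : ℕ) : ℝ) +
        a * (1 - 1 / ((N + 1 : ℕ) : ℝ)) := by
    intro N
    induction N with
    | zero =>
      have h1 : S2 (0 + 1) = 0 := by
        unfold S2
        simp
      rw [h1]
      simp
    | succ n ih =>
      set u : ℝ := ((n + 1 : ℕ) : ℝ) with hu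
      have hu1 : 1 ≤ u := by
        rw [hu]
        exact_mod_cast Nat.le_add_left 1 n
      have hv : ((n + 1 + 1 : ℕ) : ℝ) = u + 1 := by
        rw [hu]; push_cast; ring
      rw [S2_succ (n + 1), D1_succ (n + 1), hv]
      have hD' := (abs_le.1 (hD (n + 1) (by omega))).1
      rw [← hu] at hD'
      set d : ℝ := Real.log (u + 1) - Real.log u with hd
      have hd0 : 0 ≤ d := by
        have := Real.log_le_log (by linarith : 0 < u) (by linarith : u ≤ u + 1)
        linarith
      have hd1 : d ≤ 1 / u := by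
        have h1 : d = Real.log (1 + 1 / u) := by
          rw [hd, ← Real.log_div (by linarith) (by linarith)]
          congr 1
          field_simp
        rw [h1]
        have h2 := Real.log_le_sub_one_of_pos (show (0 : ℝ) < 1 + 1 / u by positivity)
        linarith
      have hL : Real.log (u + 1) = Real.log u + d := by rw [hd]; ring
      have hdd : d ^ 2 / 2 ≤ 1 / u - 1 / (u + 1) := by
        have h1 : d ^ 2 ≤ (1 / u) ^ 2 := pow_le_pow_left₀ hd0 hd1 2
        have h2 : (1 / u) ^ 2 / 2 ≤ 1 / u - 1 / (u + 1) := by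
          rw [div_pow, one_pow, div_sub_div _ _ (by positivity) (by positivity), div_div,
            div_le_div_iff₀ (by positivity) (by positivity)]
          nlinarith
        linarith
      rw [hL]
      have h3 : (-C + a * Real.log u) * d ≤ D1 (n + 1) * d := by
        apply mul_le_mul_of_nonneg_right _ hd0
        linarith
      have h4 : a * (d ^ 2 / 2) ≤ a * (1 / u - 1 / (u + 1)) := mul_le_mul_of_nonneg_left hdd ha0.le
      have h5 : mu (n + 1 + 1) ^ 2 * (Real.log u + d) / (u + 1) =
          mu (n + 1 + 1) ^ 2 / (u + 1) * (Real.log u + d) := by ring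
      rw [h5]
      nlinarith
  refine ⟨2 * C + a, by positivity, fun N hN => ?_⟩
  obtain ⟨n, rfl⟩ : ∃ n, N = n + 1 := ⟨N - 1, by omega⟩
  have h1 := key n
  have h2 := (abs_le.1 (hD (n + 1) (by omega))).2
  set L : ℝ := Real.log ((n + 1 : ℕ) : ℝ) with hL
  have hL0 : 0 ≤ L := Real.log_natCast_nonneg _
  have h3 : D1 (n + 1) * L ≤ (a * L + C) * L := by
    apply mul_le_mul_of_nonneg_right _ hL0
    linarith
  have h4 : 0 ≤ 1 / ((n + 1 : ℕ) : ℝ) := by positivity
  have h5 : 3 / Real.pi ^ 2 = a / 2 := by rw [ha]; ring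
  rw [h5]
  nlinarith

/-- Weierstrass inequality -/
lemma one_sub_prod_le {ι : Type} (s : Finset ι) (x : ι → ℝ) (h : ∀ i ∈ s, 0 ≤ x i ∧ x i ≤ 1) :
    0 ≤ ∏ i ∈ s, (1 - x i) ∧ ∏ i ∈ s, (1 - x i) ≤ 1 ∧ 1 - ∏ i ∈ s, (1 - x i) ≤ ∑ i ∈ s, x i := by
  classical
  induction s using Finset.induction_on with
  | empty => simp
  | insert a s ha ih =>
    obtain ⟨h1, h2, h3⟩ := ih (fun i hi => h i (Finset.mem_insert_of_mem hi))
    obtain ⟨h4, h5⟩ := h a (Finset.mem_insert_self a s)
    rw [Finset.prod_insert ha, Finset.sum_insert ha]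
    refine ⟨mul_nonneg (by linarith) h1, ?_, ?_⟩
    · nlinarith
    · nlinarith

theorem t_DD : S_DD := by
  intro N δ hN hδ hlog
  have hE : Real.exp (2 * δ * Real.log N) ≤ 2 := by
    have h1 := Real.exp_le_exp.2 hlog
    rwa [Real.exp_log (show (0 : ℝ) < 2 by norm_num)] at h1
  have hterm : ∀ m ∈ Finset.Icc 1 N, 0 ≤ mu m ^ 2 *
      (m : ℝ) ^ (-(1 + 2 * δ)) * (1 - ∏ p ∈ m.primeFactors, (2 - (p : ℝ) ^ (2 * δ))) ∧
      mu m ^ 2 * (m : ℝ) ^ (-(1 + 2 * δ)) * (1 - ∏ p ∈ m.primeFactors, (2 - (p : ℝ) ^ (2 * δ))) ≤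
      2 * δ * Real.exp (2 * δ * Real.log N) * (mu m ^ 2 * Real.log m / m) := by
    intro m hm
    rw [Finset.mem_Icc] at hm
    have hm1 : (1 : ℝ) ≤ m := by exact_mod_cast hm.1
    have hm0 : (0 : ℝ) < m := by linarith
    by_cases hs : Squarefree m
    · set x : ℕ → ℝ := fun p => (p : ℝ) ^ (2 * δ) - 1 with hx
      have hprod : ∏ p ∈ m.primeFactors, (2 - (p : ℝ) ^ (2 * δ)) = ∏ p ∈ m.primeFactors, (1 - x p) := by
        apply Finset.prod_congr rfl
        intro p _
        rw [hx]; ring
      have hxp : ∀ p ∈ m.primeFactors, 0 ≤ x p ∧ x p ≤ 1 ∧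
          x p ≤ 2 * δ * Real.exp (2 * δ * Real.log N) * Real.log p := by
        intro p hp
        have hpp := Nat.prime_of_mem_primeFactors hp
        have hpm : p ≤ m := Nat.le_of_mem_primeFactors hp
        have hp1 : (1 : ℝ) ≤ p := by exact_mod_cast hpp.one_lt.le
        have hp0 : (0 : ℝ) < p := by linarith
        have hpN : (p : ℝ) ≤ N := by exact_mod_cast hpm.trans hm.2
        have e1 : (p : ℝ) ^ (2 * δ) = Real.exp (2 * δ * Real.log p) := by
          rw [Real.rpow_def_of_pos hp0]
          congr 1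
          ring
        have hlp : 0 ≤ Real.log p := Real.log_nonneg hp1
        have e2 : 2 * δ * Real.log p ≤ 2 * δ * Real.log N :=
          mul_le_mul_of_nonneg_left (Real.log_le_log hp0 hpN) (by linarith)
        have e3 : Real.exp (2 * δ * Real.log p) ≤ Real.exp (2 * δ * Real.log N) := Real.exp_le_exp.2 e2
        have e4 : 0 ≤ 2 * δ * Real.log p := by positivity
        have e5 : 1 ≤ Real.exp (2 * δ * Real.log p) := Real.one_le_exp e4
        have e6 : Real.exp (2 * δ * Real.log p) - 1 ≤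
            2 * δ * Real.log p * Real.exp (2 * δ * Real.log p) := by
          have h1 := Real.add_one_le_exp (-(2 * δ * Real.log p))
          have h2 : Real.exp (-(2 * δ * Real.log p)) * Real.exp (2 * δ * Real.log p) = 1 := by
            rw [← Real.exp_add]; simp
          nlinarith [Real.exp_pos (2 * δ * Real.log p)]
        have e7 : 2 * δ * Real.log p * Real.exp (2 * δ * Real.log p) ≤
            2 * δ * Real.log p * Real.exp (2 * δ * Real.log N) :=
          mul_le_mul_of_nonneg_left e3 e4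
        rw [hx]
        simp only
        rw [e1]
        refine ⟨by linarith, by linarith, ?_⟩
        linarith
      obtain ⟨g1, g2, g3⟩ := one_sub_prod_le m.primeFactors x (fun p hp => ⟨(hxp p hp).1, (hxp p hp).2.1⟩)
      rw [hprod]
      have hsum : ∑ p ∈ m.primeFactors, x p ≤ 2 * δ * Real.exp (2 * δ * Real.log N) * Real.log m := by
        have h1 : Real.log m = ∑ p ∈ m.primeFactors, Real.log p := by
          rw [← Real.log_prod (fun p hp => by
            have := (Nat.prime_of_mem_primeFactors hp).pos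
            positivity)]
          congr 1
          have h7 := Nat.prod_primeFactors_of_squarefree hs
          have h8 : ((∏ p ∈ m.primeFactors, p : ℕ) : ℝ) = (m : ℝ) := by rw [h7]
          rw [← h8, Nat.cast_prod]
        rw [h1, Finset.mul_sum]
        exact Finset.sum_le_sum fun p hp => (hxp p hp).2.2
      have hpow0 : 0 ≤ (m : ℝ) ^ (-(1 + 2 * δ)) := Real.rpow_nonneg hm0.le _
      have hpow : (m : ℝ) ^ (-(1 + 2 * δ)) ≤ 1 / m := by
        rw [one_div, ← Real.rpow_neg_one]
        exact Real.rpow_le_rpow_of_exponent_le hm1 (by linarith)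
      have hlm : 0 ≤ Real.log m := Real.log_nonneg hm1
      refine ⟨mul_nonneg (mul_nonneg (sq_nonneg _) hpow0) (by linarith), ?_⟩
      have h6 : 1 - ∏ p ∈ m.primeFactors, (1 - x p) ≤ 2 * δ * Real.exp (2 * δ * Real.log N) * Real.log m :=
        g3.trans hsum
      calc mu m ^ 2 * (m : ℝ) ^ (-(1 + 2 * δ)) * (1 - ∏ p ∈ m.primeFactors, (1 - x p))
          ≤ mu m ^ 2 * (1 / m) * (2 * δ * Real.exp (2 * δ * Real.log N) * Real.log m) := by
            apply mul_le_mul _ h6 (by linarith) (by positivity)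
            exact mul_le_mul_of_nonneg_left hpow (sq_nonneg _)
        _ = 2 * δ * Real.exp (2 * δ * Real.log N) * (mu m ^ 2 * Real.log m / m) := by ring
    · have h1 : mu m = 0 := by
        unfold mu
        rw [ArithmeticFunction.moebius_eq_zero_of_not_squarefree hs]
        simp
      rw [h1]
      simp
  constructor
  · unfold Dd
    exact Finset.sum_nonneg fun m hm => (hterm m hm).1
  · unfold Dd S2
    rw [Finset.mul_sum]
    exact Finset.sum_le_sum fun m hm => (hterm m hm).2

end Pool.Agent.H153.HBS2
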