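import Pool.Agent.H101.HB.Stm2

set_option autoImplicit false

open Complex MeasureTheory Filter Topology Set

namespace Pool.Agent.H153.HBK

open Pool.Agent.Y763.HB Pool.Agent.H101.HB

lemma one_le_log {T : ℝ} (hT : 3 ≤ T) : 1 ≤ Real.log T := by
  rw [Real.le_log_iff_exp_le (by linarith)]
  have := Real.exp_one_lt_d9
  linarith

lemma rpow_inv_log {T : ℝ} (hT : 3 ≤ T) : T ^ (1 / Real.log T) = Real.exp 1 := by
  rw [Real.rpow_def_of_pos (by linarith), mul_one_div, div_self]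
  have := one_le_log hT
  linarith

lemma delta_le {T δ : ℝ} (hT : 3 ≤ T) (hδ : 0 < δ) (h : δ * Real.log T ≤ 1 / 8) : δ ≤ 1 / 8 := by
  have := one_le_log hT
  nlinarith

lemma lc_re (T δ t : ℝ) : (lc T δ t).re = 1 + 2 * δ + 1 / Real.log T := by
  unfold lc
  rw [Complex.add_re, Complex.ofReal_re]
  simp

lemma lc_im (T δ t : ℝ) : (lc T δ t).im = t := by
  unfold lc
  rw [Complex.add_im, Complex.ofReal_im]
  simp

/-- telescoping bound -/
lemma rpow_tele {η : ℝ} (hη : 0 < η) (n : ℕ) :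
    ((n + 2 : ℕ) : ℝ) ^ (-(1 + η)) ≤ (1 / η) * (((n + 1 : ℕ) : ℝ) ^ (-η) - ((n + 2 : ℕ) : ℝ) ^ (-η)) := by
  set u : ℝ := ((n + 1 : ℕ) : ℝ) with hu
  have hu1 : 1 ≤ u := by
    rw [hu]; exact_mod_cast Nat.le_add_left 1 n
  have hv : ((n + 2 : ℕ) : ℝ) = u + 1 := by
    rw [hu]; push_cast; ring
  rw [hv]
  have hu0 : 0 < u := by linarith
  have h1 : u ^ (-η) = (u + 1) ^ (-η) * Real.exp (-η * Real.log (u / (u + 1))) := by
    rw [Real.rpow_def_of_pos hu0, Real.rpow_def_of_pos (by linarith : 0 < u + 1), ← Real.exp_add,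
      Real.log_div hu0.ne' (by linarith)]
    congr 1
    ring
  have h2 : 1 + η * (1 / (u + 1)) ≤ Real.exp (-η * Real.log (u / (u + 1))) := by
    have h3 := Real.add_one_le_exp (-η * Real.log (u / (u + 1)))
    have h4 : Real.log (u / (u + 1)) ≤ u / (u + 1) - 1 := Real.log_le_sub_one_of_pos (by positivity)
    have h5 : u / (u + 1) - 1 = - (1 / (u + 1)) := by field_simp; ring
    rw [h5] at h4
    nlinarith
  have h6 : (u + 1) ^ (-(1 + η)) = (u + 1) ^ (-η) * (1 / (u + 1)) := by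
    rw [show -(1 + η) = -η + -1 by ring, Real.rpow_add (by linarith), Real.rpow_neg_one, one_div]
  rw [h6, h1]
  have h7 : 0 < (u + 1) ^ (-η) := Real.rpow_pos_of_pos (by linarith) _
  have h8 : (u + 1) ^ (-η) * (1 + η * (1 / (u + 1))) ≤
      (u + 1) ^ (-η) * Real.exp (-η * Real.log (u / (u + 1))) := mul_le_mul_of_nonneg_left h2 h7.le
  rw [div_mul_eq_mul_div, one_mul, le_div_iff₀ hη]
  linarith

lemma summable_nat {η : ℝ} (hη : 0 < η) : Summable (fun n : ℕ => (n : ℝ) ^ (-(1 + η))) :=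
  Real.summable_nat_rpow.2 (by linarith)

lemma tsum_le {η : ℝ} (hη : 0 < η) : ∑' n : ℕ, (n : ℝ) ^ (-(1 + η)) ≤ 1 + 1 / η := by
  have hs := summable_nat hη
  rw [hs.tsum_eq_zero_add, ((summable_nat_add_iff 1).2 hs).tsum_eq_zero_add]
  have h0 : ((0 : ℕ) : ℝ) ^ (-(1 + η)) = 0 := by
    rw [Nat.cast_zero, Real.zero_rpow (by linarith)]
  have h1 : ((0 + 1 : ℕ) : ℝ) ^ (-(1 + η)) = 1 := by simp
  rw [h0, h1, zero_add]
  have hs2 : Summable (fun n : ℕ => ((n + 1 + 1 : ℕ) : ℝ) ^ (-(1 + η))) :=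
    (summable_nat_add_iff 2).2 hs
  have h2 : ∑' n : ℕ, ((n + 1 + 1 : ℕ) : ℝ) ^ (-(1 + η)) ≤ 1 / η := by
    apply Summable.tsum_le_of_sum_range_le hs2
    intro k
    calc ∑ n ∈ Finset.range k, ((n + 1 + 1 : ℕ) : ℝ) ^ (-(1 + η))
        ≤ ∑ n ∈ Finset.range k, (1 / η) * (((n + 1 : ℕ) : ℝ) ^ (-η) - ((n + 1 + 1 : ℕ) : ℝ) ^ (-η)) :=
          Finset.sum_le_sum fun n _ => rpow_tele hη n
      _ = (1 / η) * (((0 + 1 : ℕ) : ℝ) ^ (-η) - ((k + 1 : ℕ) : ℝ) ^ (-η)) := by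
          rw [← Finset.mul_sum, Finset.sum_range_sub' (fun n : ℕ => ((n + 1 : ℕ) : ℝ) ^ (-η))]
      _ ≤ (1 / η) * 1 := by
          apply mul_le_mul_of_nonneg_left _ (by positivity)
          have h3 : ((0 + 1 : ℕ) : ℝ) ^ (-η) = 1 := by simp
          have h4 : 0 ≤ ((k + 1 : ℕ) : ℝ) ^ (-η) := by positivity
          linarith
      _ = 1 / η := mul_one _
  linarith

lemma norm_term {η : ℝ} {s : ℂ} (hs : 1 + η ≤ s.re) (n : ℕ) (hη : 0 < η) :
    ‖(n : ℂ) ^ (-s)‖ ≤ (n : ℝ) ^ (-(1 + η)) := by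
  rcases Nat.eq_zero_or_pos n with rfl | hn
  · have h1 : (-s) ≠ 0 := by
      intro h
      have := congrArg Complex.re h
      simp at this
      linarith
    rw [Nat.cast_zero, Complex.zero_cpow h1, norm_zero]
    positivity
  · rw [Complex.norm_natCast_cpow_of_pos hn, Complex.neg_re]
    apply Real.rpow_le_rpow_of_exponent_le (by exact_mod_cast hn)
    linarith

lemma norm_zeta_le {η : ℝ} (hη : 0 < η) {s : ℂ} (hs : 1 + η ≤ s.re) : ‖riemannZeta s‖ ≤ 1 + 1 / η := by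
  have h1 : riemannZeta s = ∑' n : ℕ, 1 / (n : ℂ) ^ s := zeta_eq_tsum_one_div_nat_cpow (by linarith)
  rw [h1]
  refine (tsum_of_norm_bounded (summable_nat hη).hasSum (fun n => ?_)).trans (tsum_le hη)
  rw [one_div, ← Complex.cpow_neg]
  exact norm_term hs n hη

lemma hasSum_mu {s : ℂ} (hs : 1 < s.re) :
    HasSum (fun n : ℕ => ((mu n : ℝ) : ℂ) * (n : ℂ) ^ (-s)) (riemannZeta s)⁻¹ := by
  have h1 := iz_sum hs
  have h2 : iz s = (riemannZeta s)⁻¹ := by
    have h3 : s ≠ 1 := by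
      rintro rfl
      simp at hs
    unfold iz
    rw [G_eq h3, div_mul_eq_div_div, div_self (sub_ne_zero.2 h3), one_div]
  rw [h2] at h1
  exact h1

lemma norm_inv_zeta_le {η : ℝ} (hη : 0 < η) {s : ℂ} (hs : 1 + η ≤ s.re) :
    ‖(riemannZeta s)⁻¹‖ ≤ 1 + 1 / η := by
  rw [← (hasSum_mu (s := s) (by linarith)).tsum_eq]
  refine (tsum_of_norm_bounded (summable_nat hη).hasSum (fun n => ?_)).trans (tsum_le hη)
  rw [norm_mul, Complex.norm_real, Real.norm_eq_abs]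
  calc |mu n| * ‖(n : ℂ) ^ (-s)‖ ≤ 1 * (n : ℝ) ^ (-(1 + η)) :=
        mul_le_mul (mu_abs n) (norm_term hs n hη) (norm_nonneg _) zero_le_one
    _ = _ := one_mul _

lemma norm_Z_le {T δ t : ℝ} (hT : 3 ≤ T) (hδ : 0 < δ) : ‖Z δ (lc T δ t)‖ ≤ (1 + Real.log T) ^ 2 := by
  have hL := one_le_log hT
  have hη : 0 < 1 / Real.log T := by positivity
  have e : 1 / (1 / Real.log T) = Real.log T := by rw [one_div_one_div]
  have h1 : ‖riemannZeta (lc T δ t - ((2 * δ : ℝ) : ℂ))‖ ≤ 1 + Real.log T := by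
    have := norm_zeta_le hη (s := lc T δ t - ((2 * δ : ℝ) : ℂ)) (by
      rw [Complex.sub_re, lc_re, Complex.ofReal_re]; linarith)
    rwa [e] at this
  have h2 : ‖(riemannZeta (lc T δ t))⁻¹‖ ≤ 1 + Real.log T := by
    have := norm_inv_zeta_le hη (s := lc T δ t) (by rw [lc_re]; linarith)
    rwa [e] at this
  unfold Z
  rw [div_eq_mul_inv, norm_mul, sq]
  exact mul_le_mul h1 h2 (norm_nonneg _) (by linarith)

lemma harm (N : ℕ) : ∑ n ∈ Finset.Icc 1 N, (1 : ℝ) / n ≤ 1 + Real.log N := by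
  have h := harmonic_le_one_add_log N
  rw [harmonic_eq_sum_Icc] at h
  push_cast at h
  simpa [one_div] using h

lemma norm_A_le {T δ t : ℝ} {N : ℕ} (hT : 3 ≤ T) (hδ : 0 < δ) (hN : 1 ≤ N) (hNT : (N : ℝ) ≤ T) :
    ‖A N (lc T δ t)‖ ≤ 1 + Real.log T := by
  have hL := one_le_log hT
  unfold A
  refine (norm_sum_le _ _).trans ?_
  have h1 : ∑ n ∈ Finset.Icc 1 N, ‖(mu n : ℂ) * (n : ℂ) ^ (-(lc T δ t))‖ ≤ ∑ n ∈ Finset.Icc 1 N, (1 : ℝ) / n := by
    refine Finset.sum_le_sum fun n hn => ?_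
    have hn1 := (Finset.mem_Icc.1 hn).1
    rw [norm_mul, Complex.norm_real, Real.norm_eq_abs, Complex.norm_natCast_cpow_of_pos hn1,
      Complex.neg_re, lc_re]
    have h2 : (n : ℝ) ^ (-(1 + 2 * δ + 1 / Real.log T)) ≤ 1 / n := by
      rw [one_div (n : ℝ), ← Real.rpow_neg_one (n : ℝ)]
      apply Real.rpow_le_rpow_of_exponent_le (by exact_mod_cast hn1)
      have : 0 ≤ 1 / Real.log T := by positivity
      linarith
    calc |mu n| * (n : ℝ) ^ (-(1 + 2 * δ + 1 / Real.log T)) ≤ 1 * (1 / n) :=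
          mul_le_mul (mu_abs n) h2 (by positivity) zero_le_one
      _ = 1 / n := one_mul _
  have h3 : Real.log N ≤ Real.log T := Real.log_le_log (by exact_mod_cast hN) hNT
  have h4 := harm N
  linarith

lemma rpow_le_e {T : ℝ} (hT : 3 ≤ T) {m : ℕ} (hmT : (m : ℝ) ≤ T) :
    (m : ℝ) ^ (1 / Real.log T) ≤ Real.exp 1 := by
  have hL := one_le_log hT
  rw [← rpow_inv_log hT]
  exact Real.rpow_le_rpow (Nat.cast_nonneg m) hmT (by positivity)

lemma norm_A'_le {T δ t : ℝ} {N : ℕ} (hT : 3 ≤ T) (hNT : (N : ℝ) ≤ T) :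
    ‖A N (((1 + 2 * δ : ℝ) : ℂ) - lc T δ t)‖ ≤ Real.exp 1 * N := by
  have hL := one_le_log hT
  unfold A
  refine (norm_sum_le _ _).trans ?_
  have h1 : ∑ n ∈ Finset.Icc 1 N, ‖(mu n : ℂ) * (n : ℂ) ^ (-(((1 + 2 * δ : ℝ) : ℂ) - lc T δ t))‖ ≤
      ∑ n ∈ Finset.Icc 1 N, Real.exp 1 := by
    refine Finset.sum_le_sum fun n hn => ?_
    have hn1 := (Finset.mem_Icc.1 hn).1
    have hnN := (Finset.mem_Icc.1 hn).2
    have hnT : (n : ℝ) ≤ T := le_trans (by exact_mod_cast hnN) hNT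
    rw [norm_mul, Complex.norm_real, Real.norm_eq_abs, Complex.norm_natCast_cpow_of_pos hn1,
      Complex.neg_re, Complex.sub_re, lc_re, Complex.ofReal_re]
    have h2 : -(1 + 2 * δ - (1 + 2 * δ + 1 / Real.log T)) = 1 / Real.log T := by ring
    rw [h2]
    calc |mu n| * (n : ℝ) ^ (1 / Real.log T) ≤ 1 * Real.exp 1 :=
          mul_le_mul (mu_abs n) (rpow_le_e hT hnT) (by positivity) zero_le_one
      _ = _ := one_mul _
  rw [Finset.sum_const, Nat.card_Icc, nsmul_eq_mul] at h1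
  rw [mul_comm (Real.exp 1)]
  simpa using h1

/-- pointwise bound for the Gaussian -/
lemma gauss_pt {T : ℝ} (hT : 3 ≤ T) {x : ℝ} (hx : 0 ≤ x) :
    Real.exp (-(x ^ 2 / T ^ 2)) / (1 + x) ≤ Real.exp 2 * (1 + x) ^ (-(1 + 1 / Real.log T)) := by
  have hL := one_le_log hT
  have hT0 : 0 < T := by linarith
  have h1 : (1 + x) ^ (-(1 + 1 / Real.log T)) = (1 + x) ^ (-(1 / Real.log T)) / (1 + x) := by
    rw [show -(1 + 1 / Real.log T) = -(1 / Real.log T) + -1 by ring, Real.rpow_add (by linarith),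
      Real.rpow_neg_one]
    exact (div_eq_mul_inv _ _).symm
  rw [h1, ← mul_div_assoc]
  apply div_le_div_of_nonneg_right _ (by linarith)
  rw [Real.rpow_neg (by linarith), ← div_eq_mul_inv, le_div_iff₀ (by positivity)]
  -- exp(-(x²/T²)) (1+x)^(1/L) ≤ e²
  have h2 : (1 + x) ^ (1 / Real.log T) ≤ Real.exp 2 * (1 + x ^ 2 / T ^ 2) := by
    have h3 : 1 + x ≤ T ^ 2 * (1 + x ^ 2 / T ^ 2) := by
      have h4 : T ^ 2 * (1 + x ^ 2 / T ^ 2) = T ^ 2 + x ^ 2 := by field_simp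
      rw [h4]
      nlinarith [sq_nonneg (x - 1)]
    calc (1 + x) ^ (1 / Real.log T) ≤ (T ^ 2 * (1 + x ^ 2 / T ^ 2)) ^ (1 / Real.log T) :=
          Real.rpow_le_rpow (by linarith) h3 (by positivity)
      _ = (T ^ 2) ^ (1 / Real.log T) * (1 + x ^ 2 / T ^ 2) ^ (1 / Real.log T) :=
          Real.mul_rpow (by positivity) (by positivity)
      _ ≤ Real.exp 2 * (1 + x ^ 2 / T ^ 2) := by
          apply mul_le_mul _ _ (by positivity) (by positivity)
          · rw [← Real.rpow_natCast T 2, ← Real.rpow_mul hT0.le, mul_comm, Real.rpow_mul hT0.le,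
              rpow_inv_log hT, Real.exp_one_rpow]
            norm_num
          · calc (1 + x ^ 2 / T ^ 2) ^ (1 / Real.log T) ≤ (1 + x ^ 2 / T ^ 2) ^ (1 : ℝ) := by
                  apply Real.rpow_le_rpow_of_exponent_le
                  · have : 0 ≤ x ^ 2 / T ^ 2 := by positivity
                    linarith
                  · rw [div_le_one (by linarith)]
                    exact hL
              _ = _ := Real.rpow_one _
  have h5 : 1 + x ^ 2 / T ^ 2 ≤ Real.exp (x ^ 2 / T ^ 2) := by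
    have := Real.add_one_le_exp (x ^ 2 / T ^ 2)
    linarith
  have h6 : Real.exp (-(x ^ 2 / T ^ 2)) * Real.exp (x ^ 2 / T ^ 2) = 1 := by
    rw [← Real.exp_add]; simp
  calc Real.exp (-(x ^ 2 / T ^ 2)) * (1 + x) ^ (1 / Real.log T)
      ≤ Real.exp (-(x ^ 2 / T ^ 2)) * (Real.exp 2 * Real.exp (x ^ 2 / T ^ 2)) := by
        apply mul_le_mul_of_nonneg_left _ (Real.exp_pos _).le
        exact h2.trans (mul_le_mul_of_nonneg_left h5 (Real.exp_pos _).le)
    _ = Real.exp 2 * (Real.exp (-(x ^ 2 / T ^ 2)) * Real.exp (x ^ 2 / T ^ 2)) := by ring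
    _ = Real.exp 2 := by rw [h6, mul_one]

lemma integrable_abs {η : ℝ} (hη : 0 < η) : Integrable (fun t : ℝ => (1 + |t|) ^ (-(1 + η))) := by
  have := integrable_one_add_norm (E := ℝ) (μ := volume) (r := 1 + η) (by
    rw [Module.finrank_self]; push_cast; linarith)
  simpa [Real.norm_eq_abs] using this

lemma integral_abs {η : ℝ} (hη : 0 < η) : ∫ t : ℝ, (1 + |t|) ^ (-(1 + η)) = 2 / η := by
  rw [integral_comp_abs (f := fun t : ℝ => (1 + t) ^ (-(1 + η)))]
  have h1 : ∫ t in Ioi (0 : ℝ), (1 + t) ^ (-(1 + η)) = 1 / η := by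
    have h2 : ∀ x ∈ Ici (0 : ℝ), HasDerivAt (fun t : ℝ => - (1 / η) * (1 + t) ^ (-η)) ((1 + x) ^ (-(1 + η))) x := by
      intro x hx
      have hx' : 0 < 1 + x := by
        have : 0 ≤ x := hx
        linarith
      have h3 : HasDerivAt (fun t : ℝ => (1 + t) ^ (-η)) (1 * (-η) * (1 + x) ^ (-η - 1)) x :=
        ((hasDerivAt_id x).const_add 1).rpow_const (Or.inl hx'.ne')
      have h4 := h3.const_mul (-(1 / η))
      have h5 : -(1 / η) * (1 * (-η) * (1 + x) ^ (-η - 1)) = (1 + x) ^ (-(1 + η)) := by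
        rw [show -(1 + η) = -η - 1 by ring]
        field_simp
      rw [h5] at h4
      exact h4
    have h6 : Tendsto (fun t : ℝ => - (1 / η) * (1 + t) ^ (-η)) atTop (𝓝 (- (1 / η) * 0)) := by
      apply Tendsto.const_mul
      exact (tendsto_rpow_neg_atTop hη).comp (tendsto_atTop_add_const_left _ 1 tendsto_id)
    have h7 : ∀ x ∈ Ioi (0 : ℝ), 0 ≤ (1 + x) ^ (-(1 + η)) := by
      intro x hx
      have : 0 < x := hx
      positivity
    have h8 := integral_Ioi_of_hasDerivAt_of_nonneg' h2 h7 h6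
    rw [h8]
    simp
  rw [h1]
  ring

lemma gauss_int {T : ℝ} (hT : 3 ≤ T) :
    Integrable (fun t : ℝ => Real.exp (-(t ^ 2 / T ^ 2)) / (1 + |t|)) ∧
    ∫ t : ℝ, Real.exp (-(t ^ 2 / T ^ 2)) / (1 + |t|) ≤ 2 * Real.exp 2 * Real.log T := by
  have hL := one_le_log hT
  have hη : 0 < 1 / Real.log T := by positivity
  have hpt : ∀ t : ℝ, Real.exp (-(t ^ 2 / T ^ 2)) / (1 + |t|) ≤
      Real.exp 2 * (1 + |t|) ^ (-(1 + 1 / Real.log T)) := by
    intro t
    have := gauss_pt hT (abs_nonneg t)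
    rwa [sq_abs] at this
  have hi : Integrable (fun t : ℝ => Real.exp 2 * (1 + |t|) ^ (-(1 + 1 / Real.log T))) :=
    (integrable_abs hη).const_mul _
  have h1 : Integrable (fun t : ℝ => Real.exp (-(t ^ 2 / T ^ 2)) / (1 + |t|)) := by
    refine hi.mono' ?_ (Eventually.of_forall fun t => ?_)
    · apply Continuous.aestronglyMeasurable
      apply Continuous.div (by fun_prop) (by fun_prop)
      intro t
      have := abs_nonneg t
      linarith
    · rw [Real.norm_eq_abs, abs_of_nonneg (by positivity)]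
      exact hpt t
  refine ⟨h1, ?_⟩
  calc ∫ t : ℝ, Real.exp (-(t ^ 2 / T ^ 2)) / (1 + |t|)
      ≤ ∫ t : ℝ, Real.exp 2 * (1 + |t|) ^ (-(1 + 1 / Real.log T)) := integral_mono h1 hi hpt
    _ = Real.exp 2 * (2 / (1 / Real.log T)) := by rw [integral_const_mul, integral_abs hη]
    _ = 2 * Real.exp 2 * Real.log T := by
        field_simp

end Pool.Agent.H153.HBK
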